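import Pool.Agent.K3h28.NR.Stm

set_option autoImplicit false

open Matrix
open scoped ComplexOrder

namespace Pool.Agent.K3h13.NR

open Pool.Agent.Helper774 Pool.Agent.K3h28.NR

theorem pen_herm {n : ℕ} (A : Matrix (Fin n) (Fin n) ℂ) (p : ℝ × ℂ) : (pen A p).IsHermitian := by
  unfold pen Matrix.IsHermitian
  rw [conjTranspose_add, conjTranspose_add, conjTranspose_conjTranspose, conjTranspose_smul,
    conjTranspose_one]
  have h : star (p.1 : ℂ) = (p.1 : ℂ) := Complex.conj_ofReal p.1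
  rw [h, add_assoc, add_comm ((p.2 • A)ᴴ), ← add_assoc]

theorem pen_quad {n : ℕ} (A : Matrix (Fin n) (Fin n) ℂ) (p : ℝ × ℂ) (x : Fin n → ℂ) :
    star x ⬝ᵥ (pen A p *ᵥ x) =
      ((p.1 * (star x ⬝ᵥ x).re + 2 * (p.2 * (star x ⬝ᵥ (A *ᵥ x))).re : ℝ) : ℂ) := by
  unfold pen
  rw [add_mulVec, add_mulVec, dotProduct_add, dotProduct_add, quad_conjTranspose, smul_mulVec,
    smul_mulVec, one_mulVec, dotProduct_smul, dotProduct_smul, smul_eq_mul, smul_eq_mul]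
  have h1 : star x ⬝ᵥ x = (((star x ⬝ᵥ x).re : ℝ) : ℂ) := by
    rw [dot_self_eq, Complex.ofReal_re]
  have h2 : p.2 * (star x ⬝ᵥ A *ᵥ x) + (starRingEnd ℂ) (p.2 * (star x ⬝ᵥ A *ᵥ x)) =
      ((2 * (p.2 * (star x ⬝ᵥ (A *ᵥ x))).re : ℝ) : ℂ) := by
    rw [Complex.add_conj]
  rw [add_assoc, h2]
  nth_rewrite 1 [h1]
  push_cast
  ring

theorem t_MWI : S_MWI := by
  intro n m A T hn h z hz
  by_contra hzA
  obtain ⟨u, hu⟩ := exists_sep A z hzA
  have hne : (MW A).Nonempty := by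
    refine ⟨_, ⟨Pi.single ⟨0, hn⟩ 1, ?_, rfl⟩⟩
    simp
  obtain ⟨w₀, hw₀, hmax⟩ := (MW_isCompact A).exists_isMaxOn hne
    (f := fun w : ℂ => (u * w).re) (by fun_prop)
  have hlt := hu w₀ hw₀
  obtain ⟨H, hH⟩ : ∃ H : ℝ, H = (u * w₀).re := ⟨_, rfl⟩
  have hq : ∀ x : Fin n → ℂ, (u * (star x ⬝ᵥ (A *ᵥ x))).re ≤ H * (star x ⬝ᵥ x).re := by
    intro x
    have h1 := re_quad_le_of_MW (u • A) H (by
      rintro w ⟨y, hy, rfl⟩
      have h2 := hmax (show star y ⬝ᵥ (A *ᵥ y) ∈ MW A from ⟨y, hy, rfl⟩)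
      rw [smul_mulVec, dotProduct_smul, smul_eq_mul, hH]
      exact h2) x
    rw [smul_mulVec, dotProduct_smul, smul_eq_mul] at h1
    exact h1
  have hA : (pen A (H, -u / 2)).PosSemidef := by
    refine Matrix.PosSemidef.of_dotProduct_mulVec_nonneg (pen_herm A _) (fun x => ?_)
    rw [pen_quad]
    rw [Complex.zero_le_real]
    have h1 := hq x
    have h2 : (-u / 2 * (star x ⬝ᵥ (A *ᵥ x))).re = -(u * (star x ⬝ᵥ (A *ᵥ x))).re / 2 := by
      have : -u / 2 * (star x ⬝ᵥ (A *ᵥ x)) = ((-(1 / 2) : ℝ) : ℂ) * (u * (star x ⬝ᵥ (A *ᵥ x))) := by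
        push_cast
        ring
      rw [this, Complex.re_ofReal_mul]
      ring
    simp only
    rw [h2]
    linarith
  have hT := h _ hA
  obtain ⟨x, hx, hxz⟩ := hz
  have h3 := hT.dotProduct_mulVec_nonneg x
  rw [pen_quad, Complex.zero_le_real, hx, hxz] at h3
  have h2 : (-u / 2 * z).re = -(u * z).re / 2 := by
    have : -u / 2 * z = ((-(1 / 2) : ℝ) : ℂ) * (u * z) := by
      push_cast
      ring
    rw [this, Complex.re_ofReal_mul]
    ring
  simp only at h3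
  rw [h2] at h3
  simp only [Complex.one_re] at h3
  linarith

end Pool.Agent.K3h13.NR
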